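import Mathlib
import Pool.Agent.Lib_helper92.ActL1.Defs
import Pool.Agent.Lib_helper92.ActL1.Grp
import Pool.Agent.Lib_helper92.ActL1.GDelta
import Pool.Agent.Lib_helper92.ActL1.Dense
import Pool.Agent.Lib_helper92.ActL1.Polish

/-!
# A non-amenable countable group whose generic actions on `L₁[0,1]` admit invariant strictly
convex renormings
-/

set_option autoImplicit false

namespace Pool.Agent.Results.MP_af7e7c_an.GenericRenorming

open Pool.Agent.Lib_helper92.ActL1 Topology

/-- Negative answer to Q1, for both spaces of actions: there is a countable non-amenable group `G`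
such that the actions admitting a `G`-invariant strictly convex renorming form a comeager set in
`Act_G(L₁[0,1])` and in `Act_G⁺(L₁[0,1])`, while their complements are not comeager. -/
theorem result : ∃ (G : Type) (_ : Group G), Countable G ∧ ¬ IsAmenable G ∧
    ({α : Act G | HasInvariantRenorming α} ∈ residual (Act G) ∧
      {α : Act G | HasInvariantRenorming α}ᶜ ∉ residual (Act G)) ∧
    ({α : ActPos G | HasInvariantRenorming α.1} ∈ residual (ActPos G) ∧
      {α : ActPos G | HasInvariantRenorming α.1}ᶜ ∉ residual (ActPos G)) := by
  have h1 := good_residual (dense_good Gam)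
  have h2 := good_residual_pos (dense_good_pos Gam)
  have b1 : BaireSpace (Act Gam) := Polish.baire_act
  have b2 : BaireSpace (ActPos Gam) := Polish.baire_actPos
  have n1 : Nonempty (Act Gam) := ⟨(Polish.triv Gam).1⟩
  have n2 : Nonempty (ActPos Gam) := ⟨Polish.triv Gam⟩
  exact ⟨Gam, inferInstance, inferInstance, not_amenable,
    ⟨h1, Polish.not_compl_residual _ h1⟩, ⟨h2, Polish.not_compl_residual _ h2⟩⟩

end Pool.Agent.Results.MP_af7e7c_an.GenericRenorming
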